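import Pool.Agent.Y890.MV.Base
import Pool.Agent.Y124.Core

/-!
# Non-archimedean determinants close to a small space, and points near an analytic hypersurface
-/

set_option autoImplicit false

open Finset Filter Topology

namespace Pool.Agent.Y99.MV

open Pool.Agent.Y120 (cm mv w_sum_le w_sub_le)
open Pool.Agent.Y890.MV

section na

variable {K : Type} [Field K] {w : AbsoluteValue K ℝ}

/-- bound for a determinant with a different bound for each row -/
theorem w_det_le_rows (hw : IsNonarchimedean w) {I : Type*} [Fintype I] [DecidableEq I]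
    (V : I → I → K) (c : I → ℝ) (hV : ∀ i j, w (V i j) ≤ c i) :
    w (Matrix.of V).det ≤ ∏ i, c i := by
  rw [Matrix.det_apply']
  have hc : ∀ i, 0 ≤ c i := fun i => (w.nonneg _).trans (hV i i)
  refine w_sum_le hw _ _ _ (prod_nonneg fun i _ => hc i) fun σ _ => ?_
  rw [map_mul, map_prod]
  have h1 : w ((Equiv.Perm.sign σ : ℤ) : K) = 1 := by
    rcases Int.units_eq_one_or (Equiv.Perm.sign σ) with h | h <;> simp [h]
  rw [h1, one_mul, ← Equiv.prod_comp σ c]
  exact prod_le_prod (fun i _ => w.nonneg _) fun i _ => hV _ _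

/-- C1 -/
theorem close : StmClose := by
  classical
  intro K _ w hw I B _ _ _ _ V x Cv E Y Φ η hY hΦ hη0 hη1 hV hx hCv hE
  -- rows
  let X : I → Option B → I → K := fun b o => match o with
    | none => fun a => E b a
    | some β => fun a => x b β * Cv β a
  have hVX : V = fun b => ∑ o, X b o := by
    funext b a
    rw [hV, Finset.sum_apply, Fintype.sum_option, add_comm]
  have hdet : (Matrix.of V).det = ∑ f : I → Option B, (Matrix.of fun b => X b (f b)).det := by
    have := MultilinearMap.map_sum (Matrix.detRowAlternating (n := I) (R := K)).toMultilinearMap X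
    rw [hVX]
    exact this
  have hYΦ : 0 ≤ Y * Φ := mul_nonneg hY hΦ
  rw [hdet]
  refine w_sum_le hw _ _ _ (mul_nonneg (pow_nonneg hYΦ _) (pow_nonneg hη0 _)) fun f _ => ?_
  by_cases hinj : ∃ b b' : I, b ≠ b' ∧ f b = f b' ∧ f b ≠ none
  · obtain ⟨b, b', hbb, hf, hne⟩ := hinj
    obtain ⟨β, hβ⟩ := Option.ne_none_iff_exists'.1 hne
    have hβ' : f b' = some β := by rw [← hf, hβ]
    have hz : (Matrix.of fun b => X b (f b)).det = 0 := by
      have h1 : (Matrix.of fun c => X c (f c)) =
          ((Matrix.of fun c => X c (f c)).updateRow b (x b β • Cv β)) := by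
        ext c a
        rw [Matrix.updateRow_apply]
        split_ifs with hc
        · subst hc
          simp [X, hβ]
        · rfl
      rw [h1, Matrix.det_updateRow_smul]
      have h2 : ((Matrix.of fun c => X c (f c)).updateRow b (Cv β)) =
          (((Matrix.of fun c => X c (f c)).updateRow b (Cv β)).updateRow b' (x b' β • Cv β)) := by
        ext c a
        rw [Matrix.updateRow_apply (i := b')]
        split_ifs with hc
        · subst hc
          rw [Matrix.updateRow_apply, if_neg (Ne.symm hbb)]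
          simp [X, hβ']
        · rfl
      rw [h2, Matrix.det_updateRow_smul]
      rw [Matrix.det_zero_of_row_eq hbb]
      · simp
      · rw [Matrix.updateRow_self, Matrix.updateRow_ne hbb, Matrix.updateRow_self]
    rw [hz, map_zero]
    exact mul_nonneg (pow_nonneg hYΦ _) (pow_nonneg hη0 _)
  · push Not at hinj
    let N : Finset I := univ.filter fun b => f b = none
    have hcard : Fintype.card I - Fintype.card B ≤ N.card := by
      have h1 : (univ.filter fun b => ¬ f b = none).card ≤ Fintype.card B := by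
        have : (univ.filter fun b => ¬ f b = none).card ≤
            (univ.image (some : B → Option B)).card := by
          refine Finset.card_le_card_of_injOn f ?_ ?_
          · intro b hb
            rw [Finset.mem_coe, mem_filter] at hb
            obtain ⟨β, hβ⟩ := Option.ne_none_iff_exists'.1 hb.2
            simp [hβ]
          · intro b hb b' hb' hbb
            rw [Finset.mem_coe, mem_filter] at hb hb'
            by_contra hne
            exact hb.2 (hinj b b' hne hbb)
        refine this.trans ?_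
        refine card_image_le.trans ?_
        simp
      have h2 := card_filter_add_card_filter_not (s := (univ : Finset I)) (fun b => f b = none)
      rw [card_univ] at h2
      change _ ≤ (univ.filter fun b => f b = none).card
      omega
    have hrow := w_det_le_rows hw (fun b => X b (f b))
      (fun b => if f b = none then (Y * Φ) * η else Y * Φ) (by
        intro i j
        rcases h : f i with _ | β
        · simp only [X, if_true]
          exact hE i j
        · simp only [X]
          rw [if_neg (by simp), map_mul]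
          exact mul_le_mul (hx i β) (hCv β j) (w.nonneg _) hY)
    refine hrow.trans ?_
    have hprod : ∏ b : I, (if f b = none then (Y * Φ) * η else Y * Φ) =
        (Y * Φ) ^ Fintype.card I * η ^ N.card := by
      have : ∀ b : I, (if f b = none then (Y * Φ) * η else Y * Φ) =
          (Y * Φ) * (if f b = none then η else 1) := by
        intro b
        split_ifs <;> ring
      rw [Finset.prod_congr rfl fun b _ => this b, prod_mul_distrib, prod_const, card_univ,
        Finset.prod_ite, prod_const, prod_const_one, mul_one]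
    rw [hprod]
    exact mul_le_mul_of_nonneg_left (pow_le_pow_of_le_one hη0 hη1 hcard) (pow_nonneg hYΦ _)

/-! ### The matrix of the multiples of a function -/

/-- entries of the matrix: coefficient of `z ^ α'` in `z ^ (α - μ) * g` -/
noncomputable def mE {R : Type*} [Zero R] {J : Type*} [Fintype J] (g : (J → ℕ) → R) (μ : J → ℕ)
    (α α' : J → ℕ) : R :=
  haveI := Classical.dec (∀ j, α j ≤ α' j + μ j)
  if ∀ j, α j ≤ α' j + μ j then g (fun j => α' j + μ j - α j) else 0

/-- the determinant of the matrix does not vanish over a domain -/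
theorem det_mE_ne_zero {R : Type*} [CommRing R] [IsDomain R] {J : Type*} [Fintype J]
    [LinearOrder J] (g : (J → ℕ) → R) (μ : J → ℕ)
    (hμ : g μ ≠ 0) (hmin : ∀ η, g η ≠ 0 → toLex μ ≤ toLex η) (m : ℕ)
    {N : Type*} [Fintype N] [DecidableEq N] (ι : N → J → Fin m) (hι : Function.Injective ι) :
    (Matrix.of fun α α' : N =>
      mE g μ (fun j => (ι α j : ℕ)) (fun j => (ι α' j : ℕ))).det ≠ 0 := by
  classical
  set b : N → Lex (J → ℕ) := fun α => toLex (fun j => (ι α j : ℕ)) with hb
  have hbinj : Function.Injective b := by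
    intro α α' h
    apply hι
    funext j
    have : (fun j => (ι α j : ℕ)) = (fun j => (ι α' j : ℕ)) := toLex.injective h
    exact Fin.ext (congrFun this j)
  let _ : LinearOrder N := LinearOrder.lift' b hbinj
  have htri : (Matrix.of fun α α' : N =>
      mE g μ (fun j => (ι α j : ℕ)) (fun j => (ι α' j : ℕ))).IsUpperTriangular := by
    intro α α' hlt
    have hlt' : b α' < b α := hlt
    rw [Matrix.of_apply]
    unfold mE
    split_ifs with hle
    · by_contra hne
      have h1 := hmin _ hne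
      have h2 : b α + toLex μ ≤
          b α + toLex (fun j => (ι α' j : ℕ) + μ j - (ι α j : ℕ)) := by
        gcongr
      have h3 : b α + toLex (fun j => (ι α' j : ℕ) + μ j - (ι α j : ℕ)) = b α' + toLex μ := by
        apply toLex.symm.injective
        funext j
        have h5 : (ι α j : ℕ) ≤ (ι α' j : ℕ) + μ j := hle j
        change (ι α j : ℕ) + ((ι α' j : ℕ) + μ j - (ι α j : ℕ)) = (ι α' j : ℕ) + μ j
        omega
      rw [h3] at h2
      have h4 : b α ≤ b α' := le_of_add_le_add_right h2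
      exact absurd hlt' (not_lt.2 h4)
    · rfl
  rw [Matrix.det_of_isUpperTriangular htri]
  refine prod_ne_zero_iff.2 fun α _ => ?_
  rw [Matrix.of_apply]
  unfold mE
  rw [if_pos (fun j => Nat.le_add_right _ _)]
  have : (fun j => (ι α j : ℕ) + μ j - (ι α j : ℕ)) = μ := by
    funext j
    omega
  rw [this]
  exact hμ

/-- the ring of integral elements -/
def OO (hw : IsNonarchimedean w) : Subring K where
  carrier := {x | w x ≤ 1}
  mul_mem' := by
    intro a b ha hb
    simp only [Set.mem_ofPred_eq] at *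
    rw [map_mul]
    exact mul_le_one₀ ha (w.nonneg _) hb
  one_mem' := by simp
  add_mem' := by
    intro a b ha hb
    exact (hw a b).trans (max_le ha hb)
  zero_mem' := by simp
  neg_mem' := by
    intro a ha
    simp only [Set.mem_ofPred_eq] at *
    rwa [w.map_neg]

/-- the maximal ideal -/
def MI (hw : IsNonarchimedean w) : Ideal (OO hw) where
  carrier := {x | w (x : K) < 1}
  add_mem' := by
    intro a b ha hb
    exact lt_of_le_of_lt (hw _ _) (max_lt ha hb)
  zero_mem' := by simp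
  smul_mem' := by
    intro c a ha
    simp only [Set.mem_ofPred_eq, smul_eq_mul] at *
    have h1 : w (c : K) ≤ 1 := c.2
    have h2 := w.nonneg (a : K)
    calc w ((c * a : OO hw) : K) = w (c : K) * w (a : K) := by
          rw [Subring.coe_mul, map_mul]
      _ ≤ 1 * w (a : K) := mul_le_mul_of_nonneg_right h1 h2
      _ = w (a : K) := one_mul _
      _ < 1 := ha

theorem MI_prime (hw : IsNonarchimedean w) : (MI hw).IsPrime := by
  constructor
  · intro h
    have h1 : (1 : OO hw) ∈ MI hw := by rw [h]; trivial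
    have h2 : w ((1 : OO hw) : K) < 1 := h1
    simp at h2
  · intro a b hab
    by_contra hcon
    push Not at hcon
    have h1 : w (a : K) = 1 := le_antisymm a.2 (not_lt.mp hcon.1)
    have h2 : w (b : K) = 1 := le_antisymm b.2 (not_lt.mp hcon.2)
    have h3 : w ((a * b : OO hw) : K) < 1 := hab
    rw [Subring.coe_mul, map_mul, h1, h2, one_mul] at h3
    exact lt_irrefl _ h3

/-- the matrix is invertible over the ring of integral elements -/
theorem exists_mu (hw : IsNonarchimedean w) {J : Type*} [Fintype J] (b : (J → ℕ) → K)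
    (hb : ∀ p, w (b p) ≤ 1) (hunit : ∃ p, w (b p) = 1) :
    ∃ μ : J → ℕ, ∀ (m : ℕ) (N : Type) [Fintype N] [DecidableEq N] (ι : N → J → Fin m),
      Function.Injective ι → w (Matrix.of fun α α' : N =>
        mE b μ (fun j => (ι α j : ℕ)) (fun j => (ι α' j : ℕ))).det = 1 := by
  classical
  let _ : LinearOrder J := LinearOrder.lift' (Fintype.equivFin J) (Fintype.equivFin J).injective
  obtain ⟨μ, hμ, hmin⟩ := Pool.Agent.Y124.exists_lex_min (fun p => w (b p) = 1) hunit
  refine ⟨μ, fun m N _ _ ι hι => ?_⟩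
  have hprime := MI_prime hw
  let b' : (J → ℕ) → OO hw := fun p => ⟨b p, hb p⟩
  let π : OO hw →+* OO hw ⧸ MI hw := Ideal.Quotient.mk (MI hw)
  have hπ : ∀ a : OO hw, π a ≠ 0 ↔ w (a : K) = 1 := by
    intro a
    rw [Ne, Ideal.Quotient.eq_zero_iff_mem]
    constructor
    · intro h
      exact le_antisymm a.2 (not_lt.mp h)
    · intro h h1
      have h2 : w (a : K) < 1 := h1
      rw [h] at h2
      exact lt_irrefl _ h2
  have hdom : IsDomain (OO hw ⧸ MI hw) := Ideal.Quotient.isDomain (MI hw)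
  have h1 := det_mE_ne_zero (fun p => π (b' p)) μ ((hπ _).mpr hμ)
    (fun η hη => hmin η ((hπ _).mp hη)) m ι hι
  let M' : Matrix N N (OO hw) := Matrix.of fun α α' : N =>
    mE b' μ (fun j => (ι α j : ℕ)) (fun j => (ι α' j : ℕ))
  have h2 : (Matrix.of fun α α' : N =>
      mE (fun p => π (b' p)) μ (fun j => (ι α j : ℕ)) (fun j => (ι α' j : ℕ))) =
      π.mapMatrix M' := by
    ext α α'
    simp only [Matrix.of_apply, RingHom.mapMatrix_apply, Matrix.map_apply, M', mE]
    split_ifs
    · rfl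
    · exact (map_zero π).symm
  have h3 : (Matrix.of fun α α' : N =>
      mE b μ (fun j => (ι α j : ℕ)) (fun j => (ι α' j : ℕ))) =
      (OO hw).subtype.mapMatrix M' := by
    ext α α'
    simp only [Matrix.of_apply, RingHom.mapMatrix_apply, Matrix.map_apply, M', mE]
    split_ifs
    · rfl
    · rfl
  rw [h2, ← RingHom.map_det] at h1
  rw [h3, ← RingHom.map_det]
  exact (hπ _).mp h1

theorem w_mE_le {J : Type*} [Fintype J] (b : (J → ℕ) → K)
    (hb : ∀ p, w (b p) ≤ 1) (μ α α' : J → ℕ) : w (mE b μ α α') ≤ 1 := by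
  unfold mE
  split_ifs
  · exact hb _
  · simp

/-- elimination -/
theorem elim (hw : IsNonarchimedean w) {G B : Type} [Fintype G] [DecidableEq G] [Fintype B]
    (M : G → G → K) (Q : G → B → K) (hM : ∀ i j, w (M i j) ≤ 1)
    (hdet : w (Matrix.of M).det = 1) (hQ : ∀ i j, w (Q i j) ≤ 1) :
    ∃ (x' : G → B → K) (R : G → G → K), (∀ g β, w (x' g β) ≤ 1) ∧ (∀ g h, w (R g h) ≤ 1) ∧
      ∀ (v : G → K) (z : B → K) (e : G → K),
        (∀ α, ∑ α', M α α' * v α' + ∑ β, Q α β * z β = e α) →
        ∀ γ, v γ = ∑ β, x' γ β * z β + ∑ α, R γ α * e α := by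
  classical
  let R : Matrix G G K := (Matrix.of M)⁻¹
  have hd0 : (Matrix.of M).det ≠ 0 := by
    intro h
    rw [h] at hdet
    simp at hdet
  have hRM : R * Matrix.of M = 1 := Matrix.nonsing_inv_mul _ (isUnit_iff_ne_zero.mpr hd0)
  have hR : ∀ g h, w (R g h) ≤ 1 := by
    intro g h
    simp only [R]
    rw [Matrix.inv_def, Matrix.smul_apply, smul_eq_mul, map_mul, Ring.inverse_eq_inv', map_inv₀,
      hdet, inv_one, one_mul, Matrix.adjugate_apply]
    have h1 := w_det_le_rows hw (fun i j => ((Matrix.of M).updateRow h (Pi.single g 1)) i j)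
      (fun _ => 1) (by
        intro i j
        rw [Matrix.updateRow_apply]
        split_ifs
        · by_cases hj : j = g
          · subst hj
            simp
          · simp [hj]
        · exact hM i j)
    rw [prod_const_one] at h1
    exact h1
  refine ⟨fun g β => -∑ α, R g α * Q α β, R, ?_, hR, ?_⟩
  · intro g β
    rw [w.map_neg]
    refine w_sum_le hw _ _ _ zero_le_one fun α _ => ?_
    rw [map_mul]
    exact mul_le_one₀ (hR g α) (w.nonneg _) (hQ α β)
  · intro v z e he γ
    have h1 : v γ = ∑ α, R γ α * ∑ α', M α α' * v α' := by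
      have h2 : v = (R * Matrix.of M).mulVec v := by rw [hRM, Matrix.one_mulVec]
      calc v γ = ((R * Matrix.of M).mulVec v) γ := congrFun h2 γ
        _ = (R.mulVec ((Matrix.of M).mulVec v)) γ := by rw [Matrix.mulVec_mulVec]
        _ = _ := rfl
    have h3 : ∀ α, ∑ α', M α α' * v α' = e α - ∑ β, Q α β * z β := fun α =>
      eq_sub_of_add_eq (he α)
    have h4 : ∑ α, R γ α * ∑ β, Q α β * z β = ∑ β, (∑ α, R γ α * Q α β) * z β := by
      calc ∑ α, R γ α * ∑ β, Q α β * z β = ∑ α, ∑ β, R γ α * Q α β * z β := by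
            refine sum_congr rfl fun α _ => ?_
            rw [mul_sum]
            exact sum_congr rfl fun β _ => (mul_assoc _ _ _).symm
        _ = ∑ β, ∑ α, R γ α * Q α β * z β := sum_comm
        _ = _ := sum_congr rfl fun β _ => (sum_mul _ _ _).symm
    rw [h1]
    calc ∑ α, R γ α * ∑ α', M α α' * v α' = ∑ α, (R γ α * e α - R γ α * ∑ β, Q α β * z β) := by
          refine sum_congr rfl fun α _ => ?_
          rw [h3 α, mul_sub]
      _ = ∑ α, R γ α * e α - ∑ β, (∑ α, R γ α * Q α β) * z β := by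
          rw [sum_sub_distrib, h4]
      _ = _ := by
          simp only [neg_mul, sum_neg_distrib]
          ring

/-- multiplication by `z ^ (α - μ)` -/
theorem mul_rel (hw : IsNonarchimedean w) {J : Type*} [Fintype J] [DecidableEq J] (m : ℕ)
    (g : (J → ℕ) → K) (hg : ∀ p, w (g p) ≤ 1) (μ : J → ℕ) (z : J → K)
    (r : ℝ) (hr0 : 0 ≤ r) (hr1 : r ≤ 1) (hz : ∀ j, w (z j) ≤ r)
    (hrel : w (∑ η : J → Fin m, g (fun j => (η j : ℕ)) * ∏ j, z j ^ (η j : ℕ)) ≤ r ^ m)
    (α : J → Fin m) (hα : ∀ j, μ j ≤ (α j : ℕ)) :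
    w (∑ α' : J → Fin m, mE g μ (fun j => (α j : ℕ)) (fun j => (α' j : ℕ)) *
      ∏ j, z j ^ (α' j : ℕ)) ≤ r ^ m := by
  classical
  set δ : J → ℕ := fun j => (α j : ℕ) - μ j with hδ
  set S : K := ∑ η : J → Fin m, g (fun j => (η j : ℕ)) * ∏ j, z j ^ (η j : ℕ) with hS
  have hz1 : ∀ j, w (z j) ≤ 1 := fun j => (hz j).trans hr1
  set I1 : Finset (J → Fin m) := univ.filter fun η => ∀ j, (η j : ℕ) + δ j < m with hI1
  have hsum : ∑ α' : J → Fin m, mE g μ (fun j => (α j : ℕ)) (fun j => (α' j : ℕ)) *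
      ∏ j, z j ^ (α' j : ℕ) =
      ∑ η ∈ I1, g (fun j => (η j : ℕ)) * ∏ j, z j ^ ((η j : ℕ) + δ j) := by
    have h1 : ∑ α' : J → Fin m, mE g μ (fun j => (α j : ℕ)) (fun j => (α' j : ℕ)) *
        ∏ j, z j ^ (α' j : ℕ) =
        ∑ α' ∈ (univ : Finset (J → Fin m)).filter
          (fun α' => ∀ j, (α j : ℕ) ≤ (α' j : ℕ) + μ j),
          g (fun j => (α' j : ℕ) + μ j - (α j : ℕ)) * ∏ j, z j ^ (α' j : ℕ) := by
      rw [sum_filter]
      refine sum_congr rfl fun α' _ => ?_
      unfold mE
      split_ifs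
      · rfl
      · rw [zero_mul]
    rw [h1]
    refine sum_bij' (fun α' _ => fun j => ⟨(α' j : ℕ) + μ j - (α j : ℕ), by
        have := hα j
        have := (α' j).isLt
        omega⟩) (fun η hη => fun j => ⟨(η j : ℕ) + δ j, (mem_filter.1 hη).2 j⟩) ?_ ?_ ?_ ?_ ?_
    · intro α' hα'
      rw [mem_filter] at hα'
      rw [hI1, mem_filter]
      refine ⟨mem_univ _, fun j => ?_⟩
      have h2 := hα'.2 j
      have h3 := hα j
      have h4 := (α' j).isLt
      simp only [hδ]
      omega
    · intro η hη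
      rw [hI1, mem_filter] at hη
      rw [mem_filter]
      refine ⟨mem_univ _, fun j => ?_⟩
      have h3 := hα j
      simp only [hδ]
      omega
    · intro α' hα'
      rw [mem_filter] at hα'
      funext j
      apply Fin.ext
      have h2 := hα'.2 j
      have h3 := hα j
      simp only [hδ]
      omega
    · intro η hη
      funext j
      apply Fin.ext
      have h3 := hα j
      simp only [hδ]
      omega
    · intro α' hα'
      rw [mem_filter] at hα'
      congr 1
      refine prod_congr rfl fun j _ => ?_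
      congr 1
      have h2 := hα'.2 j
      have h3 := hα j
      simp only [hδ]
      omega
  have hmul : (∏ j, z j ^ δ j) * S =
      ∑ η : J → Fin m, g (fun j => (η j : ℕ)) * ∏ j, z j ^ ((η j : ℕ) + δ j) := by
    rw [hS, mul_sum]
    refine sum_congr rfl fun η _ => ?_
    rw [mul_left_comm, ← prod_mul_distrib]
    congr 1
    refine prod_congr rfl fun j _ => ?_
    rw [← pow_add, add_comm]
  have hsplit := sum_filter_add_sum_filter_not (univ : Finset (J → Fin m))
    (fun η => ∀ j, (η j : ℕ) + δ j < m)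
    (fun η => g (fun j => (η j : ℕ)) * ∏ j, z j ^ ((η j : ℕ) + δ j))
  rw [← hmul] at hsplit
  rw [hsum]
  have heq : ∑ η ∈ I1, g (fun j => (η j : ℕ)) * ∏ j, z j ^ ((η j : ℕ) + δ j) =
      (∏ j, z j ^ δ j) * S - ∑ η ∈ (univ : Finset (J → Fin m)).filter
        (fun η => ¬ ∀ j, (η j : ℕ) + δ j < m),
        g (fun j => (η j : ℕ)) * ∏ j, z j ^ ((η j : ℕ) + δ j) := by
    rw [← hsplit, hI1]
    ring
  rw [heq]
  have hrm0 : 0 ≤ r ^ m := pow_nonneg hr0 m
  have hb1 : w ((∏ j, z j ^ δ j) * S) ≤ r ^ m := by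
    rw [map_mul, map_prod]
    have h5 : ∏ j, w (z j ^ δ j) ≤ 1 := by
      refine prod_le_one (fun _ _ => w.nonneg _) fun j _ => ?_
      rw [map_pow]
      exact pow_le_one₀ (w.nonneg _) (hz1 j)
    calc (∏ j, w (z j ^ δ j)) * w S ≤ 1 * w S := mul_le_mul_of_nonneg_right h5 (w.nonneg _)
      _ = w S := one_mul _
      _ ≤ r ^ m := hrel
  have hb2 : w (∑ η ∈ (univ : Finset (J → Fin m)).filter (fun η => ¬ ∀ j, (η j : ℕ) + δ j < m),
      g (fun j => (η j : ℕ)) * ∏ j, z j ^ ((η j : ℕ) + δ j)) ≤ r ^ m := by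
    refine w_sum_le hw _ _ _ hrm0 fun η hη => ?_
    rw [mem_filter] at hη
    obtain ⟨j0, hj0⟩ := not_forall.1 hη.2
    rw [map_mul]
    have h10 : w (∏ j, z j ^ ((η j : ℕ) + δ j)) ≤ r ^ m := by
      rw [map_prod, ← mul_prod_erase univ _ (mem_univ j0)]
      have h7 : w (z j0 ^ ((η j0 : ℕ) + δ j0)) ≤ r ^ m := by
        rw [map_pow]
        calc w (z j0) ^ ((η j0 : ℕ) + δ j0) ≤ r ^ ((η j0 : ℕ) + δ j0) :=
              pow_le_pow_left₀ (w.nonneg _) (hz j0) _
          _ ≤ r ^ m := pow_le_pow_of_le_one hr0 hr1 (not_lt.1 hj0)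
      have h8 : ∏ j ∈ univ.erase j0, w (z j ^ ((η j : ℕ) + δ j)) ≤ 1 := by
        refine prod_le_one (fun _ _ => w.nonneg _) fun j _ => ?_
        rw [map_pow]
        exact pow_le_one₀ (w.nonneg _) (hz1 j)
      calc w (z j0 ^ ((η j0 : ℕ) + δ j0)) * ∏ j ∈ univ.erase j0, w (z j ^ ((η j : ℕ) + δ j))
          ≤ r ^ m * 1 := mul_le_mul h7 h8 (prod_nonneg fun _ _ => w.nonneg _) hrm0
        _ = r ^ m := mul_one _
    calc w (g fun j => (η j : ℕ)) * w (∏ j, z j ^ ((η j : ℕ) + δ j)) ≤ 1 * r ^ m :=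
          mul_le_mul (hg _) h10 (w.nonneg _) zero_le_one
      _ = r ^ m := one_mul _
  exact (w_sub_le hw _ _).trans (max_le hb1 hb2)

/-- expansion of a monomial at another centre -/
theorem expand (hw : IsNonarchimedean w) {J : Type} [Fintype J] [DecidableEq J] (τ : J → K)
    (hτ : ∀ j, w (τ j) ≤ 1) (m : ℕ) (a : J → ℕ) (ha : ∀ j, a j < m) :
    ∃ c : (J → Fin m) → K, (∀ β, w (c β) ≤ 1) ∧ ∀ x : J → K,
      cm x a = ∑ β : J → Fin m, c β * ∏ j, (x j - τ j) ^ (β j : ℕ) := by
  classical
  refine ⟨fun β => ∏ j, τ j ^ (a j - (β j : ℕ)) * ((a j).choose (β j : ℕ) : K), ?_, ?_⟩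
  · intro β
    rw [map_prod]
    refine prod_le_one (fun _ _ => w.nonneg _) fun j _ => ?_
    rw [map_mul, map_pow]
    refine mul_le_one₀ (pow_le_one₀ (w.nonneg _) (hτ j)) (w.nonneg _) ?_
    exact hw.apply_natCast_le_one
  · intro x
    unfold cm
    have h1 : ∀ j, x j ^ a j = ∑ β : Fin m, (x j - τ j) ^ (β : ℕ) *
        τ j ^ (a j - (β : ℕ)) * ((a j).choose (β : ℕ) : K) := by
      intro j
      rw [Fin.sum_univ_eq_sum_range (fun β : ℕ => (x j - τ j) ^ β *
        τ j ^ (a j - β) * ((a j).choose β : K)) m]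
      have h2 : x j ^ a j = ((x j - τ j) + τ j) ^ a j := by rw [sub_add_cancel]
      rw [h2, add_pow]
      refine sum_subset ?_ ?_
      · intro β hβ
        rw [mem_range] at *
        have := ha j
        omega
      · intro β _ hβ
        rw [mem_range, not_lt] at hβ
        rw [Nat.choose_eq_zero_of_lt (by omega), Nat.cast_zero, mul_zero]
    calc ∏ j, x j ^ a j = ∏ j, ∑ β : Fin m, (x j - τ j) ^ (β : ℕ) *
        τ j ^ (a j - (β : ℕ)) * ((a j).choose (β : ℕ) : K) := prod_congr rfl fun j _ => h1 j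
      _ = ∑ β : J → Fin m, ∏ j, (x j - τ j) ^ (β j : ℕ) *
        τ j ^ (a j - (β j : ℕ)) * ((a j).choose (β j : ℕ) : K) := by
          rw [prod_univ_sum, Fintype.piFinset_univ]
      _ = _ := by
          refine sum_congr rfl fun β _ => ?_
          rw [← prod_mul_distrib]
          exact prod_congr rfl fun j _ => by ring

end na

/-- C2 -/
theorem t : StmZ := by
  classical
  intro K _ w hw X _ _ _ ρ Γ hρ0 hρ1 hΓ x τ hx hτ hLP f b hb hunit happ
  obtain ⟨μ, hμ⟩ := exists_mu hw b hb hunit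
  obtain ⟨K', hK'⟩ := exists_pow_lt_of_lt_one hΓ hρ1
  set M' := K' + 1 with hM'
  have hρM : ρ ^ M' < Γ :=
    lt_of_le_of_lt (pow_le_pow_of_le_one hρ0.le hρ1.le (Nat.le_succ K')) hK'
  set q := Fintype.card X with hq
  have hq0 : 0 < q := Fintype.card_pos
  set ν := ∑ j, μ j with hν
  set D := 2 * ν * (2 * M') ^ (q - 1) + 1 with hD
  set m := 2 * M' * D with hm
  have hineq : M' * (D * D ^ q) ≤ m * (D ^ q - ν * m ^ (q - 1)) :=
    Pool.Agent.Y124.exponent_ineq (ν := ν) (M' := M') hq0
  have hD0 : 0 < D := Nat.succ_pos _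
  have hDm : D ≤ m := by
    rw [hm, hM']
    nlinarith
  refine ⟨ρ ^ m, pow_pos hρ0 m, ?_⟩
  by_contra hinf
  have hinf' : {k | w (f k) < ρ ^ m}.Infinite := hinf
  set e : (X → Fin D) ≃ Fin (Fintype.card (X → Fin D)) := Fintype.equivFin _ with he
  set N := Fintype.card (X → Fin D) with hN
  have hNq : N = D ^ q := by simp [hN, hq]
  let pts : Fin N → ℕ := fun i => (hinf'.natEmbedding _ (i : ℕ) : ℕ)
  have hpts : Function.Injective pts := by
    intro i j hij
    have h1 := (hinf'.natEmbedding _).injective (Subtype.ext hij)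
    exact Fin.ext h1
  have hsmall : ∀ i, w (f (pts i)) < ρ ^ m := fun i => (hinf'.natEmbedding _ (i : ℕ)).2
  let ex : Fin N → X → ℕ := fun l i => (e.symm l i : ℕ)
  have hexinj : Function.Injective ex := by
    intro l l' h
    apply e.symm.injective
    funext i
    exact Fin.ext (congrFun h i)
  have hexlt : ∀ l i, ex l i < D := fun l i => (e.symm l i).isLt
  have hlow := hLP N D ex hexinj hexlt pts hpts
  -- the elimination
  let Gt : Type := {α : X → Fin m // ∀ j, μ j ≤ (α j : ℕ)}
  let Bt : Type := {α : X → Fin m // ¬ ∀ j, μ j ≤ (α j : ℕ)}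
  obtain ⟨x', R, hx', hR, helim⟩ := elim hw
    (fun α α' : Gt => mE b μ (fun j => (α.1 j : ℕ)) (fun j => (α'.1 j : ℕ)))
    (fun (α : Gt) (β : Bt) => mE b μ (fun j => (α.1 j : ℕ)) (fun j => (β.1 j : ℕ)))
    (fun _ _ => w_mE_le b hb μ _ _) (hμ m Gt (fun α => α.1) Subtype.val_injective)
    (fun _ _ => w_mE_le b hb μ _ _)
  let z : Fin N → X → K := fun r j => x (pts r) j - τ j
  have hz : ∀ r j, w (z r j) ≤ ρ := fun r j => hx _ _
  have hrel : ∀ r, w (∑ η : X → Fin m, b (fun j => (η j : ℕ)) * ∏ j, z r j ^ (η j : ℕ)) ≤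
      ρ ^ m := by
    intro r
    have h1 := happ m (pts r)
    have h2 := (hsmall r).le
    have h3 := (w_sub_le hw (f (pts r)) (f (pts r) - ∑ p : X → Fin m, b (fun i => (p i : ℕ)) *
      cm (fun i => x (pts r) i - τ i) (fun i => (p i : ℕ)))).trans (max_le h2 h1)
    rw [sub_sub_cancel] at h3
    exact h3
  let ee : Fin N → Gt → K := fun r α => ∑ α' : X → Fin m,
    mE b μ (fun j => (α.1 j : ℕ)) (fun j => (α' j : ℕ)) * ∏ j, z r j ^ (α' j : ℕ)
  have hee : ∀ r α, w (ee r α) ≤ ρ ^ m := fun r α =>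
    mul_rel hw m b hb μ (z r) ρ hρ0.le hρ1.le (hz r) (hrel r) α.1 α.2
  have hv : ∀ r (γ : Gt), ∏ j, z r j ^ (γ.1 j : ℕ) =
      ∑ β : Bt, x' γ β * ∏ j, z r j ^ (β.1 j : ℕ) + ∑ α, R γ α * ee r α := by
    intro r
    refine helim (fun γ => ∏ j, z r j ^ (γ.1 j : ℕ)) (fun β => ∏ j, z r j ^ (β.1 j : ℕ))
      (ee r) fun α => ?_
    exact Fintype.sum_subtype_add_sum_subtype (fun α : X → Fin m => ∀ j, μ j ≤ (α j : ℕ))
      (fun α' => mE b μ (fun j => (α.1 j : ℕ)) (fun j => (α' j : ℕ)) * ∏ j, z r j ^ (α' j : ℕ))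
  choose c hc1 hc2 using fun a : Fin N =>
    expand hw τ hτ m (ex a) (fun j => (hexlt a j).trans_le hDm)
  have hdet := close K w hw (Fin N) Bt
    (fun r a => cm (x (pts r)) (ex a)) (fun r β => ∏ j, z r j ^ (β.1 j : ℕ))
    (fun β a => c a β.1 + ∑ γ : Gt, c a γ.1 * x' γ β)
    (fun r a => ∑ γ : Gt, c a γ.1 * ∑ α, R γ α * ee r α) 1 1 (ρ ^ m) zero_le_one zero_le_one
    (pow_nonneg hρ0.le m) (pow_le_one₀ hρ0.le hρ1.le) ?_ ?_ ?_ ?_
  · -- the numerical contradiction
    rw [one_mul, one_pow, one_mul, Fintype.card_fin] at hdet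
    have hcardB : Fintype.card Bt ≤ ν * m ^ (q - 1) := Pool.Agent.Y124.card_not_ge μ m
    have h1 : (ρ ^ m) ^ (N - Fintype.card Bt) ≤ ρ ^ (M' * (D * D ^ q)) := by
      rw [← pow_mul]
      refine pow_le_pow_of_le_one hρ0.le hρ1.le (hineq.trans ?_)
      refine Nat.mul_le_mul_left _ ?_
      rw [hNq]
      exact Nat.sub_le_sub_left hcardB _
    have h2 : ρ ^ (M' * (D * D ^ q)) < Γ ^ (N * D) := by
      rw [pow_mul, hNq, mul_comm (D ^ q) D]
      refine pow_lt_pow_left₀ hρM (pow_nonneg hρ0.le _) ?_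
      positivity
    exact absurd (hlow.trans (hdet.trans h1)) (not_le.mpr h2)
  · -- the decomposition
    intro r a
    have h1 := hc2 a (x (pts r))
    rw [h1, ← Fintype.sum_subtype_add_sum_subtype (fun α : X → Fin m => ∀ j, μ j ≤ (α j : ℕ))]
    have h2 : ∑ γ : Gt, c a γ.1 * ∏ j, z r j ^ (γ.1 j : ℕ) =
        ∑ β : Bt, (∑ γ : Gt, c a γ.1 * x' γ β) * ∏ j, z r j ^ (β.1 j : ℕ) +
          ∑ γ : Gt, c a γ.1 * ∑ α, R γ α * ee r α := by
      calc ∑ γ : Gt, c a γ.1 * ∏ j, z r j ^ (γ.1 j : ℕ)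
          = ∑ γ : Gt, (∑ β : Bt, c a γ.1 * x' γ β * ∏ j, z r j ^ (β.1 j : ℕ) +
              c a γ.1 * ∑ α, R γ α * ee r α) := by
            refine sum_congr rfl fun γ _ => ?_
            rw [hv r γ, mul_add, mul_sum]
            congr 1
            exact sum_congr rfl fun β _ => (mul_assoc _ _ _).symm
        _ = _ := by
            rw [sum_add_distrib, sum_comm]
            congr 1
            exact sum_congr rfl fun β _ => (sum_mul _ _ _).symm
    have h3 : ∑ γ : {α : X → Fin m // ∀ j, μ j ≤ (α j : ℕ)},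
        c a γ.1 * ∏ j, (x (pts r) j - τ j) ^ (γ.1 j : ℕ) = _ := h2
    rw [h3]
    have h4 : ∑ β : {α : X → Fin m // ¬ ∀ j, μ j ≤ (α j : ℕ)},
        c a β.1 * ∏ j, (x (pts r) j - τ j) ^ (β.1 j : ℕ) =
        ∑ β : Bt, c a β.1 * ∏ j, z r j ^ (β.1 j : ℕ) := rfl
    rw [h4]
    have h5 : ∑ β : Bt, (∏ j, z r j ^ (β.1 j : ℕ)) * (c a β.1 + ∑ γ : Gt, c a γ.1 * x' γ β) =
        ∑ β : Bt, c a β.1 * ∏ j, z r j ^ (β.1 j : ℕ) +
          ∑ β : Bt, (∑ γ : Gt, c a γ.1 * x' γ β) * ∏ j, z r j ^ (β.1 j : ℕ) := by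
      rw [← sum_add_distrib]
      exact sum_congr rfl fun β _ => by ring
    rw [h5]
    ring
  · intro r β
    rw [map_prod]
    refine prod_le_one (fun _ _ => w.nonneg _) fun j _ => ?_
    rw [map_pow]
    exact pow_le_one₀ (w.nonneg _) ((hz r j).trans hρ1.le)
  · intro β a
    refine (hw _ _).trans (max_le (hc1 _ _) ?_)
    refine w_sum_le hw _ _ _ zero_le_one fun γ _ => ?_
    rw [map_mul]
    exact mul_le_one₀ (hc1 _ _) (w.nonneg _) (hx' _ _)
  · intro r a
    rw [one_mul, one_mul]
    refine w_sum_le hw _ _ _ (pow_nonneg hρ0.le m) fun γ _ => ?_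
    rw [map_mul]
    have h1 : w (∑ α, R γ α * ee r α) ≤ ρ ^ m := by
      refine w_sum_le hw _ _ _ (pow_nonneg hρ0.le m) fun α _ => ?_
      rw [map_mul]
      calc w (R γ α) * w (ee r α) ≤ 1 * ρ ^ m :=
            mul_le_mul (hR _ _) (hee _ _) (w.nonneg _) zero_le_one
        _ = ρ ^ m := one_mul _
    calc w (c a γ.1) * w (∑ α, R γ α * ee r α) ≤ 1 * ρ ^ m :=
          mul_le_mul (hc1 _ _) h1 (w.nonneg _) zero_le_one
      _ = ρ ^ m := one_mul _

end Pool.Agent.Y99.MV
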